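import Pool.Agent.H29.HMF.Stmts

set_option autoImplicit false

open Matrix MeasureTheory

namespace Pool.HMF

namespace H26CT2

theorem em0 (z : ℤ√2) : em 0 z = (z.re : ℝ) + √2 * (z.im : ℝ) := by simp [em]

theorem em1 (z : ℤ√2) : em 1 z = (z.re : ℝ) - √2 * (z.im : ℝ) := by simp [em]; ring

theorem one_le_s2 : (1 : ℝ) ≤ √2 := by
  rw [show (1 : ℝ) = √1 by simp]
  exact Real.sqrt_le_sqrt (by norm_num)

theorem re_im_bound {z : ℤ√2} {B : ℝ} (h : ∀ i, |em i z| ≤ B) :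
    |(z.re : ℝ)| ≤ B ∧ |(z.im : ℝ)| ≤ B := by
  have h0 := abs_le.1 (h 0)
  have h1 := abs_le.1 (h 1)
  rw [em0] at h0
  rw [em1] at h1
  constructor
  · rw [abs_le]
    constructor <;> linarith [h0.1, h0.2, h1.1, h1.2]
  · have h2 : |√2 * (z.im : ℝ)| ≤ B := by
      rw [abs_le]
      constructor <;> linarith [h0.1, h0.2, h1.1, h1.2]
    rw [abs_mul, abs_of_nonneg (Real.sqrt_nonneg 2)] at h2
    nlinarith [one_le_s2, abs_nonneg (z.im : ℝ)]

/-- the code -/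
def code (τ m : ℤ√2) (W : Matrix (Fin 2) (Fin 2) (ℤ√2)) : Fin 12 → ℤ :=
  ![τ.re, τ.im, m.re, m.im, (W 0 0).re % m.norm, (W 0 0).im % m.norm, (W 0 1).re % m.norm,
    (W 0 1).im % m.norm, (W 1 0).re % m.norm, (W 1 0).im % m.norm, (W 1 1).re % m.norm,
    (W 1 1).im % m.norm]

theorem code_inj {τ τ' m m' : ℤ√2} {W W' : Matrix (Fin 2) (Fin 2) (ℤ√2)}
    (h : code τ m W = code τ' m' W') : τ = τ' ∧ m = m' ∧ ∀ a b, m ∣ W' a b - W a b := by
  have h0 : τ.re = τ'.re := congrFun h 0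
  have h1 : τ.im = τ'.im := congrFun h 1
  have h2 : m.re = m'.re := congrFun h 2
  have h3 : m.im = m'.im := congrFun h 3
  have hm : m = m' := Zsqrtd.ext h2 h3
  subst hm
  have k4 : (W 0 0).re % m.norm = (W' 0 0).re % m.norm := congrFun h 4
  have k5 : (W 0 0).im % m.norm = (W' 0 0).im % m.norm := congrFun h 5
  have k6 : (W 0 1).re % m.norm = (W' 0 1).re % m.norm := congrFun h 6
  have k7 : (W 0 1).im % m.norm = (W' 0 1).im % m.norm := congrFun h 7
  have k8 : (W 1 0).re % m.norm = (W' 1 0).re % m.norm := congrFun h 8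
  have k9 : (W 1 0).im % m.norm = (W' 1 0).im % m.norm := congrFun h 9
  have k10 : (W 1 1).re % m.norm = (W' 1 1).re % m.norm := congrFun h 10
  have k11 : (W 1 1).im % m.norm = (W' 1 1).im % m.norm := congrFun h 11
  refine ⟨Zsqrtd.ext h0 h1, rfl, ?_⟩
  have key : ∀ x y : ℤ√2, x.re % m.norm = y.re % m.norm → x.im % m.norm = y.im % m.norm →
      m ∣ y - x := by
    intro x y hre him
    have h4 : ((m.norm : ℤ) : ℤ√2) ∣ y - x := by
      rw [Zsqrtd.intCast_dvd]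
      constructor
      · rw [Zsqrtd.re_sub]
        exact Int.ModEq.dvd hre
      · rw [Zsqrtd.im_sub]
        exact Int.ModEq.dvd him
    have h5 : m ∣ ((m.norm : ℤ) : ℤ√2) := by
      rw [Zsqrtd.norm_eq_mul_conj]
      exact dvd_mul_right m _
    exact h5.trans h4
  intro a b
  fin_cases a <;> fin_cases b
  · exact key _ _ k4 k5
  · exact key _ _ k6 k7
  · exact key _ _ k8 k9
  · exact key _ _ k10 k11

theorem code_mem {τ m : ℤ√2} {W : Matrix (Fin 2) (Fin 2) (ℤ√2)} {K : ℤ} (h0 : |τ.re| ≤ K)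
    (h1 : |τ.im| ≤ K) (h2 : |m.re| ≤ K) (h3 : |m.im| ≤ K) (hn : m.norm ≠ 0) (hK : |m.norm| ≤ K) :
    code τ m W ∈ Fintype.piFinset fun _ : Fin 12 => Finset.Icc (-K) K := by
  have key : ∀ x : ℤ, x % m.norm ∈ Finset.Icc (-K) K := by
    intro x
    have h4 := Int.emod_nonneg x hn
    have h5 := Int.emod_lt_abs x hn
    rw [Finset.mem_Icc]
    constructor <;> linarith
  have key2 : ∀ x : ℤ, |x| ≤ K → x ∈ Finset.Icc (-K) K := fun x hx => Finset.mem_Icc.2 (abs_le.1 hx)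
  rw [Fintype.mem_piFinset]
  intro i
  fin_cases i
  · exact key2 _ h0
  · exact key2 _ h1
  · exact key2 _ h2
  · exact key2 _ h3
  all_goals exact key _

theorem trace_rel {g : Fin 2 → S2} {η : HM} {l ε : Fin 2 → ℝ} (h : Rel g η l ε) (i : Fin 2) :
    (cm i η.1).trace = ε i * (Real.exp (l i) + Real.exp (-l i)) := by
  obtain ⟨-, h2⟩ := h i
  have h3 : (g i).1 * ((g i)⁻¹ : S2).1 = 1 := by
    have := congrArg Subtype.val (mul_inv_cancel (g i))
    exact this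
  have h4 : ((g i)⁻¹ : S2).1 * (g i).1 = 1 := by
    have := congrArg Subtype.val (inv_mul_cancel (g i))
    exact this
  have h5 : cm i η.1 = (g i).1 * (ε i • dg (l i)) * ((g i)⁻¹ : S2).1 := by
    rw [← h2, Matrix.mul_assoc, h3, Matrix.mul_one]
  rw [h5, Matrix.trace_mul_comm, ← Matrix.mul_assoc, h4, Matrix.one_mul, Matrix.trace_smul,
    smul_eq_mul, Matrix.trace_fin_two]
  simp [dg]

theorem abs_eps {e : ℝ} (h : e ^ 2 = 1) : |e| = 1 := by
  have h1 : |e| ^ 2 = 1 := by rw [sq_abs, h]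
  exact (pow_eq_one_iff_of_nonneg (abs_nonneg e) two_ne_zero).1 h1

theorem norm_real (hBAS : BASS) (m : ℤ√2) : ((m.norm : ℤ) : ℝ) = em 0 m * em 1 m := by
  rw [hBAS.2.2.2.2.2.2.1 m, Zsqrtd.norm_def]
  push_cast
  ring

theorem data (hBAS : BASS) (hNZ : NZ2S) (hMK : MK2S) (hDT : DT2S) {E : ℝ}
    {g : Fin 2 → S2} (hg : Irr g) {l : Fin 2 → ℝ} (hl : l ∈ Lam g) (hl0 : l ≠ 0)
    (hlE : ∀ i, |l i| ≤ E) : ∃ (η : HM) (ε : Fin 2 → ℝ) (v : Fin 2 → ℤ√2), Rel g η l ε ∧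
      (∀ i, l i ≠ 0) ∧ (Wm η v).det ≠ 0 ∧ (∀ i, |em i η.1.trace| ≤ 32 * Real.exp E) ∧
      ∀ i, |em i (Wm η v).det| ≤ 32 * Real.exp E := by
  have hlne := hNZ g l hl hl0
  obtain ⟨η, ε, hrel⟩ := hl
  obtain ⟨v, hv, hv4⟩ := hMK g
  have hexp : ∀ i, Real.exp (l i) ≤ Real.exp E ∧ Real.exp (-l i) ≤ Real.exp E := fun i =>
    ⟨Real.exp_le_exp.2 (abs_le.1 (hlE i)).2, Real.exp_le_exp.2 (by linarith [(abs_le.1 (hlE i)).1])⟩
  refine ⟨η, ε, v, hrel, hlne, ?_, ?_, ?_⟩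
  · intro h0
    have hz : ∀ i, em i (Wm η v).det = 0 := fun i => by rw [h0]; exact hBAS.2.2.2.2.1 i
    have hprod : ∀ i, cv g v i 0 * cv g v i 1 = 0 := by
      intro i
      have h1 := hDT g η l ε v hrel i
      rw [hz i] at h1
      have h2 : ε i ≠ 0 := by
        intro h3
        have h4 := (hrel i).1
        rw [h3] at h4
        norm_num at h4
      have h5 : Real.exp (-l i) - Real.exp (l i) ≠ 0 := by
        intro h6
        have h7 : -l i = l i := Real.exp_injective (sub_eq_zero.1 h6)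
        exact hlne i (by linarith)
      rcases mul_eq_zero.1 h1.symm with h8 | h8
      · exact absurd (mul_eq_zero.1 h8) (by tauto)
      · exact h8
    have hj : ∀ i, ∃ j : Fin 2, cv g v i j = 0 := by
      intro i
      rcases mul_eq_zero.1 (hprod i) with h | h
      · exact ⟨0, h⟩
      · exact ⟨1, h⟩
    choose j hj using hj
    obtain ⟨i, hi⟩ := hg v hv j
    exact hi (hj i)
  · intro i
    rw [← hBAS.2.2.2.2.2.2.2.2.2.2.1 i, trace_rel hrel i, abs_mul, abs_eps (hrel i).1, one_mul,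
      abs_of_pos (by positivity)]
    have := hexp i
    have := Real.exp_pos E
    linarith [(hexp i).1, (hexp i).2]
  · intro i
    rw [hDT g η l ε v hrel i, abs_mul, abs_mul, abs_eps (hrel i).1, one_mul, abs_mul]
    have h1 : |Real.exp (-l i) - Real.exp (l i)| ≤ 2 * Real.exp E := by
      rw [abs_le]
      have := Real.exp_pos (l i)
      have := Real.exp_pos (-l i)
      constructor <;> linarith [(hexp i).1, (hexp i).2]
    have h2 : |cv g v i 0| * |cv g v i 1| ≤ 4 * 4 :=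
      mul_le_mul (hv4 i 0) (hv4 i 1) (abs_nonneg _) (by norm_num)
    calc |Real.exp (-l i) - Real.exp (l i)| * (|cv g v i 0| * |cv g v i 1|)
        ≤ (2 * Real.exp E) * (4 * 4) := mul_le_mul h1 h2 (by positivity) (by positivity)
      _ = 32 * Real.exp E := by ring

theorem int_abs_le {x : ℤ} {B : ℝ} (h : |(x : ℝ)| ≤ B) : |x| ≤ ⌊B⌋ := by
  rw [Int.le_floor]
  push_cast
  exact h

theorem exp8 : (2049 : ℝ) ≤ Real.exp 8 := by
  have h1 := Real.exp_one_gt_d9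
  have h2 : Real.exp 8 = Real.exp 1 ^ 8 := by
    rw [← Real.exp_nat_mul]
    norm_num
  rw [h2]
  have h3 : (2.7 : ℝ) ^ 8 ≤ Real.exp 1 ^ 8 := pow_le_pow_left₀ (by norm_num) (by linarith) 8
  have h4 : (2049 : ℝ) ≤ (2.7 : ℝ) ^ 8 := by norm_num
  linarith

end H26CT2

open H26CT2 in
theorem ct2_thm (hBAS : BASS) (hNZ : NZ2S) (hMK : MK2S) (hDT : DT2S) (hIJ : IJ2S) : CT2S := by
  refine ⟨120, by norm_num, fun E hE => ?_⟩
  set S : Set (Set (Fin 2 → S2)) :=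
    {F | ∃ g : Fin 2 → S2, F = fl g ∧ Irr g ∧ ∃ l ∈ Lam g, l ≠ 0 ∧ ∀ i, |l i| ≤ E} with hS
  set K : ℤ := ⌊1024 * Real.exp (2 * E)⌋ with hK
  have hE1 : (1 : ℝ) ≤ Real.exp E := Real.one_le_exp (by linarith)
  have hE2 : Real.exp (2 * E) = Real.exp E ^ 2 := by
    rw [← Real.exp_nat_mul]
    norm_num
  have hEE : 32 * Real.exp E ≤ 1024 * Real.exp (2 * E) := by
    rw [hE2]
    nlinarith
  have hfl : ∀ F ∈ S, ∃ c : Fin 12 → ℤ, (c ∈ Fintype.piFinset fun _ : Fin 12 => Finset.Icc (-K) K) ∧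
      ∃ (g : Fin 2 → S2) (η : HM) (l ε : Fin 2 → ℝ) (v : Fin 2 → ℤ√2), F = fl g ∧ Rel g η l ε ∧
        (∀ i, l i ≠ 0) ∧ (Wm η v).det ≠ 0 ∧ c = code η.1.trace (Wm η v).det (Wm η v) := by
    rintro F ⟨g, hF, hg, l, hl, hl0, hlE⟩
    obtain ⟨η, ε, v, hrel, hlne, hdet, htr, hde⟩ := data hBAS hNZ hMK hDT hg hl hl0 hlE
    refine ⟨_, ?_, g, η, l, ε, v, hF, hrel, hlne, hdet, rfl⟩
    have h1 := re_im_bound htr
    have h2 := re_im_bound hde
    have hn1 : (1 : ℝ) ≤ |em 0 (Wm η v).det * em 1 (Wm η v).det| := hBAS.2.2.2.2.2.2.2.1 _ hdet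
    have hn2 : |em 0 (Wm η v).det * em 1 (Wm η v).det| ≤ 1024 * Real.exp (2 * E) := by
      rw [abs_mul, hE2]
      have := mul_le_mul (hde 0) (hde 1) (abs_nonneg _) (by positivity)
      nlinarith
    rw [← norm_real hBAS] at hn1 hn2
    apply code_mem
    · exact int_abs_le (h1.1.trans hEE)
    · exact int_abs_le (h1.2.trans hEE)
    · exact int_abs_le (h2.1.trans hEE)
    · exact int_abs_le (h2.2.trans hEE)
    · intro h0
      rw [h0] at hn1
      norm_num at hn1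
    · exact int_abs_le hn2
  choose! f hf using hfl
  have hmaps : ∀ F ∈ S, f F ∈ ((Fintype.piFinset fun _ : Fin 12 => Finset.Icc (-K) K :
      Finset (Fin 12 → ℤ)) : Set (Fin 12 → ℤ)) := fun F hF => Finset.mem_coe.2 (hf F hF).1
  have hinj : Set.InjOn f S := by
    intro F hF F' hF' heq
    obtain ⟨-, g, η, l, ε, v, hFg, hrel, hlne, hdet, hc⟩ := hf F hF
    obtain ⟨-, g', η', l', ε', v', hFg', hrel', -, -, hc'⟩ := hf F' hF'
    rw [hc, hc'] at heq
    obtain ⟨h1, h2, h3⟩ := code_inj heq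
    rw [hFg, hFg']
    exact hIJ g g' η η' l l' ε ε' v v' hrel hrel' hlne h1 h2 hdet h3
  have hfin : ((Fintype.piFinset fun _ : Fin 12 => Finset.Icc (-K) K :
      Finset (Fin 12 → ℤ)) : Set (Fin 12 → ℤ)).Finite := Finset.finite_toSet _
  refine ⟨Set.Finite.of_injOn hmaps hinj hfin, ?_⟩
  have hcard := Set.ncard_le_ncard_of_injOn f hmaps hinj hfin
  rw [Set.ncard_coe_finset, Fintype.card_piFinset, Finset.prod_const, Finset.card_univ,
    Fintype.card_fin, Int.card_Icc] at hcard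
  have hK0 : 0 ≤ K := by
    rw [hK]
    exact Int.floor_nonneg.2 (by positivity)
  have hKr : (K : ℝ) ≤ 1024 * Real.exp (2 * E) := Int.floor_le _
  have hb : (((K + 1 - -K).toNat : ℕ) : ℝ) ≤ Real.exp (8 + 2 * E) := by
    have h1 : (((K + 1 - -K).toNat : ℕ) : ℤ) = K + 1 - -K := Int.toNat_of_nonneg (by omega)
    have h2 : (((K + 1 - -K).toNat : ℕ) : ℝ) = 2 * (K : ℝ) + 1 := by
      have h3 : ((((K + 1 - -K).toNat : ℕ) : ℤ) : ℝ) = ((K + 1 - -K : ℤ) : ℝ) := by rw [h1]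
      rw [← Int.cast_natCast, h3]
      push_cast
      ring
    rw [h2, Real.exp_add]
    have h4 : (1 : ℝ) ≤ Real.exp (2 * E) := Real.one_le_exp (by linarith)
    nlinarith [exp8]
  calc ((S.ncard : ℕ) : ℝ) ≤ (((K + 1 - -K).toNat ^ 12 : ℕ) : ℝ) := by exact_mod_cast hcard
    _ = (((K + 1 - -K).toNat : ℕ) : ℝ) ^ 12 := by push_cast; rfl
    _ ≤ Real.exp (8 + 2 * E) ^ 12 := pow_le_pow_left₀ (Nat.cast_nonneg _) hb 12
    _ = Real.exp (12 * (8 + 2 * E)) := by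
      rw [← Real.exp_nat_mul]
      norm_num
    _ ≤ Real.exp (120 * E) := Real.exp_le_exp.2 (by linarith)

end Pool.HMF
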